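import Mathlib

/-!
# [H72 UZ GAM] THEOREM CP (MP_cda23d_nt), uniform zeta, analytic part: the Mellin transform of `(log x)^r` on `[1, ∞)`

`gr r x = (log x)^r` for `x ≥ 1`, `0` for `x < 1`. Its Mellin transform at `w`, `Re w < 0`, is `r!/(-w)^(r+1)`: induction on `r`, the derivative of the
Mellin transform of `f` is the Mellin transform of `log · f`.
-/

set_option autoImplicit false

namespace Pool.Agent.H72.UZ

open Complex MeasureTheory Filter Topology Set

/-- `(log x)^r` on `[1, ∞)` -/
noncomputable def gr (r : ℕ) : ℝ → ℂ := (Ici (1 : ℝ)).indicator fun x => ((Real.log x ^ r : ℝ) : ℂ)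

theorem gr_of_le (r : ℕ) {x : ℝ} (hx : 1 ≤ x) : gr r x = ((Real.log x ^ r : ℝ) : ℂ) :=
  indicator_of_mem (mem_Ici.2 hx) _

theorem gr_of_lt (r : ℕ) {x : ℝ} (hx : x < 1) : gr r x = 0 :=
  indicator_of_notMem (by rw [mem_Ici, not_le]; exact hx) _

theorem gr_meas (r : ℕ) : Measurable (gr r) := by
  unfold gr
  refine Measurable.indicator ?_ measurableSet_Ici
  exact Complex.measurable_ofReal.comp (Real.measurable_log.pow_const r)

theorem gr_loc (r : ℕ) : LocallyIntegrableOn (gr r) (Ioi 0) := by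
  have h1 : LocallyIntegrableOn (fun x : ℝ => ((Real.log x ^ r : ℝ) : ℂ)) (Ioi 0) := by
    refine ContinuousOn.locallyIntegrableOn ?_ measurableSet_Ioi
    refine Complex.continuous_ofReal.comp_continuousOn (ContinuousOn.pow ?_ r)
    exact Real.continuousOn_log.mono fun x hx => by
      rw [mem_compl_iff, mem_singleton_iff]
      exact (mem_Ioi.1 hx).ne'
  exact h1.mono (gr_meas r).aestronglyMeasurable
    (Eventually.of_forall fun x => norm_indicator_le_norm_self _ _)

theorem gr_top (r : ℕ) {a : ℝ} (ha : a < 0) : gr r =O[atTop] fun x : ℝ => x ^ (-a) := by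
  have h1 := (isLittleO_log_rpow_rpow_atTop (r : ℝ) (neg_pos.2 ha)).isBigO
  refine Asymptotics.IsBigO.trans (Asymptotics.IsBigO.of_bound 1 ?_) h1
  filter_upwards [eventually_ge_atTop (1 : ℝ)] with x hx
  rw [gr_of_le r hx, Complex.norm_real, Real.rpow_natCast, one_mul]

theorem gr_bot (r : ℕ) (b : ℝ) : gr r =O[𝓝[>] 0] fun x : ℝ => x ^ (-b) := by
  refine (Asymptotics.isBigO_zero _ _).congr' ?_ EventuallyEq.rfl
  have h1 : ∀ᶠ x : ℝ in 𝓝[>] 0, x < 1 := nhdsWithin_le_nhds (Iio_mem_nhds one_pos)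
  filter_upwards [h1] with x hx
  exact (gr_of_lt r hx).symm

theorem gr_conv (r : ℕ) {w : ℂ} (hw : w.re < 0) : MellinConvergent (gr r) w :=
  mellinConvergent_of_isBigO_rpow (gr_loc r) (gr_top r (a := w.re / 2) (by linarith)) (by linarith)
    (gr_bot r (w.re - 1)) (by linarith)

theorem gr_mellin (r : ℕ) : ∀ w : ℂ, w.re < 0 →
    mellin (gr r) w = (r.factorial : ℂ) / (-w) ^ (r + 1) := by
  induction r with
  | zero =>
    intro w hw
    have h0 : w ≠ 0 := by
      rintro rfl
      simp at hw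
    have h1 : mellin (gr 0) w = ∫ x in Ioi (1 : ℝ), (x : ℂ) ^ (w - 1) := by
      unfold mellin gr
      have h2 : ∀ x : ℝ, ((x : ℂ) ^ (w - 1)) • (Ici (1 : ℝ)).indicator
          (fun x => ((Real.log x ^ 0 : ℝ) : ℂ)) x =
          (Ici (1 : ℝ)).indicator (fun x : ℝ => (x : ℂ) ^ (w - 1)) x := by
        intro x
        by_cases hx : x ∈ Ici (1 : ℝ)
        · rw [indicator_of_mem hx, indicator_of_mem hx]
          simp
        · rw [indicator_of_notMem hx, indicator_of_notMem hx, smul_zero]
      simp_rw [h2]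
      rw [setIntegral_indicator measurableSet_Ici, ← integral_Ici_eq_integral_Ioi]
      congr 2
      ext x
      rw [mem_inter_iff, mem_Ioi, mem_Ici]
      constructor
      · exact fun h => h.2
      · exact fun h => ⟨by linarith, h⟩
    have h3 : (w - 1).re < -1 := by
      rw [Complex.sub_re, Complex.one_re]
      linarith
    rw [h1, integral_Ioi_cpow_of_lt h3 one_pos]
    simp
    field_simp
  | succ r ih =>
    intro w hw
    have h1 := (mellin_hasDerivAt_of_isBigO_rpow (s := w) (gr_loc r)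
      (gr_top r (a := w.re / 2) (by linarith)) (by linarith) (gr_bot r (w.re - 1)) (by linarith)).2
    have h2 : (fun t : ℝ => Real.log t • gr r t) = gr (r + 1) := by
      ext t
      by_cases ht : 1 ≤ t
      · rw [gr_of_le _ ht, gr_of_le _ ht, Complex.real_smul]
        push_cast
        ring
      · rw [gr_of_lt _ (not_le.1 ht), gr_of_lt _ (not_le.1 ht), smul_zero]
    rw [h2] at h1
    have h0 : w ≠ 0 := by
      rintro rfl
      simp at hw
    have h3 : HasDerivAt (fun z : ℂ => (r.factorial : ℂ) / (-z) ^ (r + 1))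
        (((r + 1).factorial : ℂ) / (-w) ^ (r + 1 + 1)) w := by
      have h4 : HasDerivAt (fun z : ℂ => (-z) ^ (r + 1)) (((r + 1 : ℕ) : ℂ) * (-w) ^ r * (-1)) w := by
        have h5 := (hasDerivAt_neg w).fun_pow (r + 1)
        exact h5
      have h6 := (h4.inv (pow_ne_zero _ (neg_ne_zero.2 h0))).const_mul (r.factorial : ℂ)
      have h7 : (r.factorial : ℂ) * (-(((r + 1 : ℕ) : ℂ) * (-w) ^ r * (-1)) / ((-w) ^ (r + 1)) ^ 2) =
          ((r + 1).factorial : ℂ) / (-w) ^ (r + 1 + 1) := by
        rw [Nat.factorial_succ]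
        have h8 : (-w) ≠ 0 := neg_ne_zero.2 h0
        push_cast
        field_simp
        ring
      rw [← h7]
      exact h6
    have h4 : mellin (gr r) =ᶠ[𝓝 w] fun z : ℂ => (r.factorial : ℂ) / (-z) ^ (r + 1) := by
      have h5 : {z : ℂ | z.re < 0} ∈ 𝓝 w := (isOpen_lt Complex.continuous_re continuous_const).mem_nhds hw
      filter_upwards [h5] with z hz
      exact ih z hz
    exact h1.unique (h3.congr_of_eventuallyEq h4)

end Pool.Agent.H72.UZ
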