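import Pool.Agent.H72.UZ.Sum

/-!
# [H72 UZ ZETA] From the Riesz mean to the continued Dirichlet series, explicit in `E`

If `|Rz r a x - κ x| ≤ κ E x^(1-1/n)` for `x ≥ 1`, then `Z(s) = (s^(r+1)/r!) (κ + (s-1) G(s))`, `G(s) = ∫_1^∞ (Rz(x) - κ x) x^(-s-1) dx`, continues
`(s-1) ∑ a(m) m^(-s)` to `Re s > 1 - 1/n`. `κ ≤ 2 r! 4^n E^n` (from `x = (2E)^n`) and `1 ≤ 6 κ E` (from `x = e`).
-/

set_option autoImplicit false

namespace Pool.Agent.H72.UZ

open Complex MeasureTheory Filter Topology Set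

theorem rz_mono (r : ℕ) {a : ℕ → ℝ} (ha : ∀ m, 0 ≤ a m) : Monotone (Rz r a) := by
  intro x y hxy
  unfold Rz
  have h1 : ∑ m ∈ Finset.Icc 1 ⌊x⌋₊, a m * Real.log (x / m) ^ r ≤
      ∑ m ∈ Finset.Icc 1 ⌊x⌋₊, a m * Real.log (y / m) ^ r := by
    refine Finset.sum_le_sum fun m hm => ?_
    have h2 := Finset.mem_Icc.1 hm
    have hm0 : (0 : ℝ) < m := by exact_mod_cast h2.1
    have h3 : (m : ℝ) ≤ x := (Nat.le_floor_iff' (by omega)).1 h2.2
    have h4 : 1 ≤ x / m := (one_le_div hm0).2 h3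
    have h5 : x / m ≤ y / m := by gcongr
    exact mul_le_mul_of_nonneg_left (pow_le_pow_left₀ (Real.log_nonneg h4)
      (Real.log_le_log (by linarith) h5) r) (ha m)
  refine h1.trans (Finset.sum_le_sum_of_subset_of_nonneg
    (Finset.Icc_subset_Icc_right (Nat.floor_mono hxy)) fun m hm _ => ?_)
  have h2 := Finset.mem_Icc.1 hm
  have hm0 : (0 : ℝ) < m := by exact_mod_cast h2.1
  have h3 : (m : ℝ) ≤ y := (Nat.le_floor_iff' (by omega)).1 h2.2
  exact mul_nonneg (ha m) (pow_nonneg (Real.log_nonneg ((one_le_div hm0).2 h3)) r)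

theorem rz_zero (r : ℕ) (a : ℕ → ℝ) {x : ℝ} (hx : x < 1) : Rz r a x = 0 := by
  unfold Rz
  rw [Nat.floor_eq_zero.2 hx]
  simp

/-- the error term -/
noncomputable def er (r : ℕ) (a : ℕ → ℝ) (κ : ℝ) : ℝ → ℂ :=
  (Ici (1 : ℝ)).indicator fun x => ((Rz r a x - κ * x : ℝ) : ℂ)

section

variable {r : ℕ} {a : ℕ → ℝ} {κ : ℝ}

theorem er_of_le {x : ℝ} (hx : 1 ≤ x) : er r a κ x = ((Rz r a x - κ * x : ℝ) : ℂ) :=
  indicator_of_mem (mem_Ici.2 hx) _

theorem er_of_lt {x : ℝ} (hx : x < 1) : er r a κ x = 0 :=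
  indicator_of_notMem (by rw [mem_Ici, not_le]; exact hx) _

theorem er_meas (ha : ∀ m, 0 ≤ a m) : Measurable (er r a κ) := by
  unfold er
  refine Measurable.indicator ?_ measurableSet_Ici
  exact Complex.measurable_ofReal.comp ((rz_mono r ha).measurable.sub (measurable_id.const_mul κ))

theorem er_loc (ha : ∀ m, 0 ≤ a m) : LocallyIntegrableOn (er r a κ) (Ioi 0) := by
  have h1 : LocallyIntegrable (fun x : ℝ => Rz r a x - κ * x) :=
    (rz_mono r ha).locallyIntegrable.sub (by fun_prop : Continuous fun x : ℝ => κ * x).locallyIntegrable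
  refine (h1.locallyIntegrableOn (Ioi 0)).mono (er_meas ha).aestronglyMeasurable
    (Eventually.of_forall fun x => ?_)
  by_cases hx : 1 ≤ x
  · rw [er_of_le hx, Complex.norm_real]
  · rw [er_of_lt (not_le.1 hx), norm_zero]
    exact norm_nonneg _

theorem er_top {c b : ℝ} (h : ∀ x : ℝ, 1 ≤ x → |Rz r a x - κ * x| ≤ c * x ^ (-b)) :
    er r a κ =O[atTop] fun x : ℝ => x ^ (-b) := by
  refine Asymptotics.IsBigO.of_bound c ?_
  filter_upwards [eventually_ge_atTop (1 : ℝ)] with x hx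
  rw [er_of_le hx, Complex.norm_real, Real.norm_eq_abs, Real.norm_eq_abs,
    abs_of_nonneg (Real.rpow_nonneg (by linarith) _)]
  exact h x hx

theorem er_bot (b : ℝ) : er r a κ =O[𝓝[>] 0] fun x : ℝ => x ^ (-b) := by
  refine (Asymptotics.isBigO_zero _ _).congr' ?_ EventuallyEq.rfl
  have h1 : ∀ᶠ x : ℝ in 𝓝[>] 0, x < 1 := nhdsWithin_le_nhds (Iio_mem_nhds one_pos)
  filter_upwards [h1] with x hx
  exact (er_of_lt hx).symm

theorem er_conv (ha : ∀ m, 0 ≤ a m) {c b : ℝ} (h : ∀ x : ℝ, 1 ≤ x → |Rz r a x - κ * x| ≤ c * x ^ (-b))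
    {w : ℂ} (hw : w.re < b) : MellinConvergent (er r a κ) w :=
  mellinConvergent_of_isBigO_rpow (er_loc ha) (er_top h) hw (er_bot (w.re - 1)) (by linarith)

theorem er_diff (ha : ∀ m, 0 ≤ a m) {c b : ℝ} (h : ∀ x : ℝ, 1 ≤ x → |Rz r a x - κ * x| ≤ c * x ^ (-b))
    {w : ℂ} (hw : w.re < b) : DifferentiableAt ℂ (mellin (er r a κ)) w :=
  mellin_differentiableAt_of_isBigO_rpow (er_loc ha) (er_top h) hw (er_bot (w.re - 1)) (by linarith)

/-- the main identity -/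
theorem er_eq (ha : ∀ m, 0 ≤ a m) {c b : ℝ} (h : ∀ x : ℝ, 1 ≤ x → |Rz r a x - κ * x| ≤ c * x ^ (-b))
    (hb : -1 ≤ b) {s : ℂ} (hs : 1 < s.re)
    (hsum : Summable fun m : ℕ => a m * (m : ℝ) ^ (-s.re)) :
    (∑' m : ℕ, (a m : ℂ) * (m : ℂ) ^ (-s)) * ((r.factorial : ℂ) / s ^ (r + 1)) =
      (κ : ℂ) * (1 / (s - 1)) + mellin (er r a κ) (-s) := by
  rw [← rz_mellin r ha (by linarith) hsum]
  have hs1 : ((-s) + 1).re < 0 := by
    rw [Complex.add_re, Complex.neg_re, Complex.one_re]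
    linarith
  have h1 : MellinConvergent (fun x : ℝ => (x : ℂ) ^ (1 : ℂ) • gr 0 x) (-s) :=
    MellinConvergent.cpow_smul.2 (gr_conv 0 hs1)
  have h2 : mellin (fun x : ℝ => (x : ℂ) ^ (1 : ℂ) • gr 0 x) (-s) = 1 / (s - 1) := by
    rw [mellin_cpow_smul, gr_mellin 0 _ hs1]
    simp [sub_eq_neg_add]
  have h3 := hasMellin_add (h1.const_smul (κ : ℂ))
    (er_conv ha h (w := -s) (by rw [Complex.neg_re]; linarith))
  have h4 : (fun x => ((Rz r a x : ℝ) : ℂ)) =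
      fun x : ℝ => (κ : ℂ) • ((x : ℂ) ^ (1 : ℂ) • gr 0 x) + er r a κ x := by
    ext x
    by_cases hx : 1 ≤ x
    · rw [gr_of_le 0 hx, er_of_le hx, smul_eq_mul, smul_eq_mul, Complex.cpow_one]
      push_cast
      ring
    · rw [gr_of_lt 0 (not_le.1 hx), er_of_lt (not_le.1 hx), rz_zero r a (not_le.1 hx)]
      simp
  rw [h4, h3.2, mellin_const_smul, h2, smul_eq_mul]

theorem er_bound {c b : ℝ} (hc : 0 ≤ c) (h : ∀ x : ℝ, 1 ≤ x → |Rz r a x - κ * x| ≤ c * x ^ (-b))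
    {w : ℂ} {δ : ℝ} (hδ : 0 < δ) (hw : w.re + δ ≤ b) : ‖mellin (er r a κ) w‖ ≤ c / δ := by
  obtain ⟨g, hg⟩ : ∃ g : ℝ → ℝ, g = (Ici (1 : ℝ)).indicator fun x => c * x ^ (-1 - δ) := ⟨_, rfl⟩
  have hlt : -1 - δ < -1 := by linarith
  have hi : IntegrableOn (fun x : ℝ => c * x ^ (-1 - δ)) (Ici 1) := by
    rw [integrableOn_Ici_iff_integrableOn_Ioi]
    exact (integrableOn_Ioi_rpow_of_lt hlt one_pos).const_mul c
  have hgi : Integrable g := by
    rw [hg, integrable_indicator_iff measurableSet_Ici]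
    exact hi
  have h1 : ‖mellin (er r a κ) w‖ ≤ ∫ x in Ioi (0 : ℝ), g x := by
    unfold mellin
    refine norm_integral_le_of_norm_le hgi.integrableOn ?_
    refine (ae_restrict_mem measurableSet_Ioi).mono fun x hx => ?_
    have hx0 : 0 < x := hx
    rw [hg]
    by_cases hx1 : 1 ≤ x
    · rw [indicator_of_mem (mem_Ici.2 hx1), er_of_le hx1, norm_smul, Complex.norm_real, Real.norm_eq_abs,
        Complex.norm_cpow_eq_rpow_re_of_pos hx0]
      calc x ^ (w - 1).re * |Rz r a x - κ * x| ≤ x ^ (w - 1).re * (c * x ^ (-b)) := by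
            gcongr
            exact h x hx1
        _ = c * x ^ ((w - 1).re + -b) := by
            rw [Real.rpow_add hx0]
            ring
        _ ≤ c * x ^ (-1 - δ) := by
            refine mul_le_mul_of_nonneg_left (Real.rpow_le_rpow_of_exponent_le hx1 ?_) hc
            rw [Complex.sub_re, Complex.one_re]
            linarith
    · rw [er_of_lt (not_le.1 hx1), smul_zero, norm_zero]
      exact indicator_nonneg (fun y hy => mul_nonneg hc (Real.rpow_nonneg (by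
        have := mem_Ici.1 hy
        linarith) _)) x
  refine h1.trans (le_of_eq ?_)
  rw [hg, setIntegral_indicator measurableSet_Ici]
  have h2 : Ioi (0 : ℝ) ∩ Ici 1 = Ici 1 := by
    ext x
    rw [mem_inter_iff, mem_Ioi, mem_Ici]
    exact ⟨fun h => h.2, fun h => ⟨by linarith, h⟩⟩
  rw [h2, integral_Ici_eq_integral_Ioi, integral_const_mul, integral_Ioi_rpow_of_lt hlt one_pos,
    Real.one_rpow]
  have h3 : (-1 - δ + 1) = -δ := by ring
  rw [h3]
  field_simp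

end

theorem rz_le {n r : ℕ} {a : ℕ → ℝ} (ha : ∀ m, 0 ≤ a m)
    (hs : Summable fun m : ℕ => a m * (m : ℝ) ^ (-(2 : ℝ)))
    (hs2 : ∑' m : ℕ, a m * (m : ℝ) ^ (-(2 : ℝ)) ≤ 2 ^ n) {x : ℝ} (hx : 0 < x) :
    Rz r a x ≤ r.factorial * x ^ 2 * 2 ^ n := by
  unfold Rz
  have h1 : ∀ m ∈ Finset.Icc 1 ⌊x⌋₊, a m * Real.log (x / m) ^ r ≤
      (r.factorial * x ^ 2) * (a m * (m : ℝ) ^ (-(2 : ℝ))) := by
    intro m hm
    have h2 := Finset.mem_Icc.1 hm
    have hm0 : (0 : ℝ) < m := by exact_mod_cast h2.1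
    have h3 : (m : ℝ) ≤ x := (Nat.le_floor_iff' (by omega)).1 h2.2
    have h4 : 1 ≤ x / m := (one_le_div hm0).2 h3
    have h5 := Real.pow_div_factorial_le_exp (Real.log (x / m)) (Real.log_nonneg h4) r
    rw [Real.exp_log (by linarith), div_le_iff₀ (by positivity)] at h5
    have h6 : x / m ≤ (x / m) ^ 2 := by nlinarith
    have h7 : (m : ℝ) ^ (-(2 : ℝ)) = ((m : ℝ) ^ 2)⁻¹ := by
      rw [Real.rpow_neg hm0.le]
      norm_num
    calc a m * Real.log (x / m) ^ r ≤ a m * ((x / m) ^ 2 * r.factorial) := by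
          refine mul_le_mul_of_nonneg_left (h5.trans ?_) (ha m)
          gcongr
      _ = (r.factorial * x ^ 2) * (a m * (m : ℝ) ^ (-(2 : ℝ))) := by
          rw [h7, div_pow]
          field_simp
  refine (Finset.sum_le_sum h1).trans ?_
  rw [← Finset.mul_sum]
  refine mul_le_mul_of_nonneg_left (le_trans ?_ hs2) (by positivity)
  exact hs.sum_le_tsum _ fun m _ => mul_nonneg (ha m) (Real.rpow_nonneg (Nat.cast_nonneg m) _)

theorem kap_le {n r : ℕ} (hn : 0 < n) {a : ℕ → ℝ} {κ E : ℝ} (ha : ∀ m, 0 ≤ a m)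
    (hs : Summable fun m : ℕ => a m * (m : ℝ) ^ (-(2 : ℝ)))
    (hs2 : ∑' m : ℕ, a m * (m : ℝ) ^ (-(2 : ℝ)) ≤ 2 ^ n) (hE : 1 ≤ E)
    (h : ∀ x : ℝ, 1 ≤ x → |Rz r a x - κ * x| ≤ κ * E * x ^ (1 - 1 / (n : ℝ))) :
    κ ≤ 2 * r.factorial * 4 ^ n * E ^ n := by
  obtain ⟨x, hx⟩ : ∃ x : ℝ, x = (2 * E) ^ n := ⟨_, rfl⟩
  have hx1 : 1 ≤ x := by
    rw [hx]
    exact one_le_pow₀ (by linarith)
  have hx0 : 0 < x := by linarith
  have hn0 : (n : ℝ) ≠ 0 := by positivity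
  have h1 : x ^ (1 - 1 / (n : ℝ)) = x / (2 * E) := by
    rw [Real.rpow_sub hx0, Real.rpow_one, hx, one_div, Real.pow_rpow_inv_natCast (by linarith) hn.ne']
  have h2 := (abs_le.1 (h x hx1)).1
  have h3 := rz_le ha hs hs2 hx0 (r := r)
  rw [h1] at h2
  have h4 : κ * E * (x / (2 * E)) = κ * x / 2 := by
    field_simp
  rw [h4] at h2
  have h5 : κ * x / 2 ≤ r.factorial * x ^ 2 * 2 ^ n := by linarith
  have h6 : κ ≤ 2 * (r.factorial * x * 2 ^ n) := by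
    have h7 : κ * x ≤ (2 * (r.factorial * x * 2 ^ n)) * x := by
      calc κ * x = 2 * (κ * x / 2) := by ring
        _ ≤ 2 * (r.factorial * x ^ 2 * 2 ^ n) := by gcongr
        _ = _ := by ring
    exact le_of_mul_le_mul_right h7 hx0
  refine h6.trans (le_of_eq ?_)
  have h8 : (4 : ℝ) ^ n = 2 ^ n * 2 ^ n := by
    rw [← mul_pow]
    norm_num
  rw [hx, mul_pow, h8]
  ring

theorem kap_ge {n r : ℕ} {a : ℕ → ℝ} {κ E : ℝ} (ha : ∀ m, 0 ≤ a m) (ha1 : 1 ≤ a 1) (hκ : 0 < κ) (hE : 1 ≤ E)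
    (h : ∀ x : ℝ, 1 ≤ x → |Rz r a x - κ * x| ≤ κ * E * x ^ (1 - 1 / (n : ℝ))) :
    1 ≤ 6 * E * κ := by
  have he1 : 1 ≤ Real.exp 1 := by
    have := Real.add_one_le_exp (1 : ℝ)
    linarith
  have he3 : Real.exp 1 ≤ 3 := by
    have := Real.exp_one_lt_d9
    linarith
  have h1 : 1 ≤ Rz r a (Real.exp 1) := by
    unfold Rz
    have hmem : 1 ∈ Finset.Icc 1 ⌊Real.exp 1⌋₊ := by
      rw [Finset.mem_Icc]
      exact ⟨le_rfl, Nat.le_floor (by simpa using he1)⟩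
    refine le_trans ?_ (Finset.single_le_sum (f := fun m : ℕ => a m * Real.log (Real.exp 1 / m) ^ r)
      (fun m hm => ?_) hmem)
    · simpa using ha1
    · have h2 := Finset.mem_Icc.1 hm
      have hm0 : (0 : ℝ) < m := by exact_mod_cast h2.1
      have h3 : (m : ℝ) ≤ Real.exp 1 := (Nat.le_floor_iff' (by omega)).1 h2.2
      exact mul_nonneg (ha m) (pow_nonneg (Real.log_nonneg ((one_le_div hm0).2 h3)) r)
  have h2 := (abs_le.1 (h _ he1)).2
  have h3 : Real.exp 1 ^ (1 - 1 / (n : ℝ)) ≤ 3 := by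
    calc Real.exp 1 ^ (1 - 1 / (n : ℝ)) ≤ Real.exp 1 ^ (1 : ℝ) := by
          apply Real.rpow_le_rpow_of_exponent_le he1
          have : 0 ≤ 1 / (n : ℝ) := by positivity
          linarith
      _ ≤ 3 := by rw [Real.rpow_one]; exact he3
  have h4 : κ * E * Real.exp 1 ^ (1 - 1 / (n : ℝ)) ≤ κ * E * 3 := by gcongr
  have h5 : κ * Real.exp 1 ≤ κ * E * 3 := by
    calc κ * Real.exp 1 ≤ κ * 3 := by gcongr
      _ ≤ κ * E * 3 := by nlinarith
  nlinarith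

/-- ANALYTIC PART of the uniform zeta chapter -/
theorem zeta_of_riesz (n : ℕ) (hn : 0 < n) : ∃ (A : ℕ) (C : ℝ), 0 < C ∧
    ∀ (r : ℕ) (a : ℕ → ℝ) (κ E : ℝ), r ≤ n → (∀ m, 0 ≤ a m) → 1 ≤ a 1 →
      (∀ σ : ℝ, 1 < σ → Summable fun m : ℕ => a m * (m : ℝ) ^ (-σ)) →
      ∑' m : ℕ, a m * (m : ℝ) ^ (-(2 : ℝ)) ≤ 2 ^ n → 0 < κ → 1 ≤ E →
      (∀ x : ℝ, 1 ≤ x → |Rz r a x - κ * x| ≤ κ * E * x ^ (1 - 1 / (n : ℝ))) →
      ∃ Z : ℂ → ℂ, DifferentiableOn ℂ Z {s | 1 - 1 / (n : ℝ) < s.re} ∧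
        (∀ s : ℂ, 1 < s.re → Z s = (s - 1) * ∑' m : ℕ, (a m : ℂ) * (m : ℂ) ^ (-s)) ∧
        (∀ s : ℂ, ‖s - 2‖ ≤ 1 + 1 / (2 * (n : ℝ)) → ‖Z s‖ ≤ C * E ^ A) ∧
        1 ≤ C * E * ‖Z 1‖ := by
  have hn0 : (0 : ℝ) < n := by exact_mod_cast hn
  refine ⟨n + 1, 4 ^ (n + 1) * ((1 + 6 * n) * (2 * n.factorial * 4 ^ n)) + 6 * n.factorial,
    by positivity, ?_⟩
  intro r a κ E hr ha ha1 hsum hs2 hκ hE h
  obtain ⟨b, hb⟩ : ∃ b : ℝ, b = -(1 - 1 / (n : ℝ)) := ⟨_, rfl⟩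
  have h' : ∀ x : ℝ, 1 ≤ x → |Rz r a x - κ * x| ≤ (κ * E) * x ^ (-b) := by
    intro x hx
    rw [hb, neg_neg]
    exact h x hx
  have hb1 : -1 ≤ b := by
    have : 0 ≤ 1 / (n : ℝ) := by positivity
    rw [hb]
    linarith
  have hfac : ((r.factorial : ℝ)) ≤ n.factorial := by exact_mod_cast Nat.factorial_le hr
  have hfac1 : (1 : ℝ) ≤ r.factorial := by exact_mod_cast Nat.one_le_iff_ne_zero.2 (Nat.factorial_ne_zero r)
  have hf0 : (r.factorial : ℂ) ≠ 0 := by exact_mod_cast Nat.factorial_ne_zero r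
  have hκu := kap_le hn ha (hsum 2 (by norm_num)) hs2 hE h
  have hκl := kap_ge ha ha1 hκ hE h
  obtain ⟨G, hG⟩ : ∃ G : ℂ → ℂ, G = fun s => mellin (er r a κ) (-s) := ⟨_, rfl⟩
  refine ⟨fun s => s ^ (r + 1) / (r.factorial : ℂ) * ((κ : ℂ) + (s - 1) * G s), ?_, ?_, ?_, ?_⟩
  · intro s hs
    have hs' : 1 - 1 / (n : ℝ) < s.re := hs
    have h1 : DifferentiableAt ℂ G s := by
      have h2 : DifferentiableAt ℂ (mellin (er r a κ)) (-s) :=
        er_diff ha h' (by rw [Complex.neg_re, hb]; linarith)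
      rw [hG]
      exact h2.comp s differentiable_neg.differentiableAt
    apply DifferentiableAt.differentiableWithinAt
    fun_prop
  · intro s hs
    have h1 := er_eq ha h' hb1 hs (hsum _ hs)
    have hs0 : s ≠ 0 := by
      rintro rfl
      simp at hs
      linarith
    have hs1 : s - 1 ≠ 0 := by
      intro h0
      rw [sub_eq_zero] at h0
      rw [h0, Complex.one_re] at hs
      linarith
    have h2 : G s = (∑' m : ℕ, (a m : ℂ) * (m : ℂ) ^ (-s)) * ((r.factorial : ℂ) / s ^ (r + 1)) -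
        (κ : ℂ) * (1 / (s - 1)) := by
      rw [h1, hG]
      ring
    show s ^ (r + 1) / (r.factorial : ℂ) * ((κ : ℂ) + (s - 1) * G s) = _
    rw [h2]
    field_simp
    ring
  · intro s hs
    have hre : |(s - 2).re| ≤ ‖s - 2‖ := Complex.abs_re_le_norm _
    have hn2 : 1 / (2 * (n : ℝ)) ≤ 1 / 2 := by
      apply one_div_le_one_div_of_le (by norm_num)
      have : (1 : ℝ) ≤ n := by exact_mod_cast hn
      linarith
    have hs1 : ‖s‖ ≤ 4 := by
      calc ‖s‖ = ‖(s - 2) + 2‖ := by rw [sub_add_cancel]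
        _ ≤ ‖s - 2‖ + ‖(2 : ℂ)‖ := norm_add_le _ _
        _ ≤ 4 := by
            rw [Complex.norm_ofNat]
            linarith
    have hs3 : ‖s - 1‖ ≤ 3 := by
      calc ‖s - 1‖ = ‖(s - 2) + 1‖ := by congr 1; ring
        _ ≤ ‖s - 2‖ + ‖(1 : ℂ)‖ := norm_add_le _ _
        _ ≤ 3 := by
            rw [norm_one]
            linarith
    have hGb : ‖G s‖ ≤ κ * E * (2 * n) := by
      have h1 : ‖G s‖ ≤ κ * E / (1 / (2 * (n : ℝ))) := by
        rw [hG]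
        refine er_bound (by positivity) h' (by positivity) ?_
        have h2 : (s - 2).re = s.re - 2 := by simp
        have h3 := (abs_le.1 (hre.trans hs)).1
        rw [h2] at h3
        rw [Complex.neg_re, hb]
        have h4 : 1 / (n : ℝ) = 1 / (2 * (n : ℝ)) + 1 / (2 * (n : ℝ)) := by
          field_simp
          norm_num
        linarith
      refine h1.trans (le_of_eq ?_)
      field_simp
    have h1 : ‖(κ : ℂ) + (s - 1) * G s‖ ≤ κ * E * (1 + 6 * n) := by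
      calc ‖(κ : ℂ) + (s - 1) * G s‖ ≤ ‖(κ : ℂ)‖ + ‖(s - 1) * G s‖ := norm_add_le _ _
        _ = κ + ‖s - 1‖ * ‖G s‖ := by
            rw [Complex.norm_real, Real.norm_eq_abs, abs_of_pos hκ, norm_mul]
        _ ≤ κ * E + 3 * (κ * E * (2 * n)) := by
            gcongr
            nlinarith
        _ = κ * E * (1 + 6 * n) := by ring
    have h2 : ‖s ^ (r + 1) / (r.factorial : ℂ)‖ ≤ 4 ^ (n + 1) := by
      rw [norm_div, norm_pow, Complex.norm_natCast]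
      calc ‖s‖ ^ (r + 1) / (r.factorial : ℝ) ≤ ‖s‖ ^ (r + 1) := div_le_self (by positivity) hfac1
        _ ≤ 4 ^ (r + 1) := by gcongr
        _ ≤ 4 ^ (n + 1) := pow_le_pow_right₀ (by norm_num) (by omega)
    calc ‖s ^ (r + 1) / (r.factorial : ℂ) * ((κ : ℂ) + (s - 1) * G s)‖
        = ‖s ^ (r + 1) / (r.factorial : ℂ)‖ * ‖(κ : ℂ) + (s - 1) * G s‖ := norm_mul _ _
      _ ≤ 4 ^ (n + 1) * (κ * E * (1 + 6 * n)) := by gcongr
      _ ≤ 4 ^ (n + 1) * ((2 * n.factorial * 4 ^ n * E ^ n) * E * (1 + 6 * n)) := by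
          gcongr
          refine hκu.trans ?_
          gcongr
      _ = (4 ^ (n + 1) * ((1 + 6 * n) * (2 * n.factorial * 4 ^ n))) * E ^ (n + 1) := by ring
      _ ≤ _ := by
          gcongr
          have : (0 : ℝ) ≤ 6 * n.factorial := by positivity
          linarith
  · have h1 : (fun s : ℂ => s ^ (r + 1) / (r.factorial : ℂ) * ((κ : ℂ) + (s - 1) * G s)) 1 =
        (κ : ℂ) / (r.factorial : ℂ) := by
      simp
      ring
    rw [h1, norm_div, Complex.norm_real, Complex.norm_natCast, Real.norm_eq_abs, abs_of_pos hκ]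
    calc (1 : ℝ) ≤ 6 * E * κ := hκl
      _ = 6 * r.factorial * E * (κ / r.factorial) := by field_simp
      _ ≤ 6 * n.factorial * E * (κ / r.factorial) := by gcongr
      _ ≤ _ := by
          gcongr
          have : (0 : ℝ) ≤ 4 ^ (n + 1) * ((1 + 6 * n) * (2 * n.factorial * 4 ^ n)) := by positivity
          linarith

end Pool.Agent.H72.UZ
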