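import Pool.Agent.H77.UZ.Def

/-!
# [H72 UZ ZK] The Dedekind zeta function as a sum over ideals: summability, `ζ_k(σ) ≤ ζ(σ)^n`, the sum over the norms

Every prime ideal `P` lies above a prime number `b P ≤ N P`, and at most `n` primes lie above a prime number, so they can be numbered: `ι P ∈ Fin n`, and
`(b P, ι P)` determines `P`. To an ideal `I` associate the `n` natural numbers `∏_{P ∣ I, ι P = i} b P` (with multiplicity). This is injective (their prime
factorisations give the exponents of all `P`), and their product is at most `N I`.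
-/

set_option autoImplicit false

namespace Pool.Agent.H72.UZ

open NumberField Ideal UniqueFactorizationMonoid Module

/-- the Dedekind zeta function as a sum over ideals -/
noncomputable def zk (k : Type) [Field k] [NumberField k] (s : ℂ) : ℂ :=
  ∑' I : {I : Ideal (𝓞 k) // I ≠ ⊥}, (absNorm I.1 : ℂ) ^ (-s)

section

variable {k : Type} [Field k] [NumberField k]

private theorem bel {P : Ideal (𝓞 k)} (hP : Prime P) : ∃ l : ℕ, l.Prime ∧ (l : 𝓞 k) ∈ P := by
  have hPr : P.IsPrime := Ideal.isPrime_of_prime hP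
  have key : ∀ m : ℕ, m ≠ 0 → (m : 𝓞 k) ∈ P → ∃ l : ℕ, l.Prime ∧ (l : 𝓞 k) ∈ P := by
    intro m
    induction m using induction_on_primes with
    | zero => exact fun h => absurd rfl h
    | one =>
      intro _ h
      exfalso
      rw [Nat.cast_one] at h
      exact hPr.ne_top ((Ideal.eq_top_iff_one P).2 h)
    | prime_mul p a hp ih =>
      intro h0 h
      rw [Nat.cast_mul] at h
      rcases hPr.mem_or_mem h with h1 | h1
      · exact ⟨p, hp, h1⟩
      · exact ih (fun h2 => h0 (by rw [h2, mul_zero])) h1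
  exact key (absNorm P) (by rw [Ne, absNorm_eq_zero_iff]; exact hP.ne_zero) (absNorm_mem P)

private theorem bel_le {P : Ideal (𝓞 k)} (hP : Prime P) {l : ℕ} (hl : l.Prime) (h : (l : 𝓞 k) ∈ P) :
    ∃ f : ℕ, 1 ≤ f ∧ absNorm P = l ^ f := by
  have hPr : P.IsPrime := Ideal.isPrime_of_prime hP
  have h1 : Ideal.span {(l : 𝓞 k)} ≤ P := (Ideal.span_singleton_le_iff_mem _).2 h
  have h2 := Ideal.absNorm_dvd_absNorm_of_le h1
  rw [Ideal.absNorm_span_natCast] at h2
  obtain ⟨f, -, hf⟩ := (Nat.dvd_prime_pow hl).1 h2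
  refine ⟨f, ?_, hf⟩
  by_contra h0
  have h3 : f = 0 := by omega
  rw [h3, pow_zero] at hf
  exact hPr.ne_top (absNorm_eq_one_iff.1 hf)

private theorem card_above {l : ℕ} (hl : l.Prime) (F : Finset (Ideal (𝓞 k)))
    (hF : ∀ P ∈ F, Prime P ∧ (l : 𝓞 k) ∈ P) : F.card ≤ finrank ℚ k := by
  classical
  have h1 : ∏ P ∈ F, P ∣ Ideal.span {(l : 𝓞 k)} := by
    refine Finset.prod_dvd_of_coprime ?_ ?_
    · intro P hP Q hQ hPQ
      show IsCoprime P Q
      have := (Ideal.isPrime_of_prime (hF P hP).1).isMaximal (hF P hP).1.ne_zero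
      have := (Ideal.isPrime_of_prime (hF Q hQ).1).isMaximal (hF Q hQ).1.ne_zero
      exact Ideal.isCoprime_of_isMaximal hPQ
    · intro P hP
      rw [Ideal.dvd_iff_le]
      exact (Ideal.span_singleton_le_iff_mem _).2 (hF P hP).2
  have h2 := map_dvd (Ideal.absNorm (S := 𝓞 k)) h1
  rw [Ideal.absNorm_span_natCast, map_prod] at h2
  have h3 : l ^ F.card ≤ ∏ P ∈ F, Ideal.absNorm P := by
    rw [← Finset.prod_const]
    refine Finset.prod_le_prod' fun P hP => ?_
    obtain ⟨f, hf, hnm⟩ := bel_le (hF P hP).1 hl (hF P hP).2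
    rw [hnm]
    calc l = l ^ 1 := (pow_one l).symm
      _ ≤ l ^ f := Nat.pow_le_pow_right hl.pos hf
  have h5 : l ^ F.card ≤ l ^ Module.finrank ℤ (𝓞 k) :=
    h3.trans (Nat.le_of_dvd (pow_pos hl.pos _) h2)
  rw [← RingOfIntegers.rank k]
  exact (Nat.pow_le_pow_iff_right hl.one_lt).1 h5

/-- the numbering of the primes above a prime number -/
private theorem exists_lab {n : ℕ} (hn : finrank ℚ k ≤ n) :
    ∃ (b : Ideal (𝓞 k) → ℕ) (ι : Ideal (𝓞 k) → Fin n),
      (∀ P, Prime P → (b P).Prime ∧ b P ≤ absNorm P) ∧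
      ∀ P Q, Prime P → Prime Q → b P = b Q → ι P = ι Q → P = Q := by
  classical
  have hn0 : 0 < n := lt_of_lt_of_le finrank_pos hn
  have h1 : ∀ l : ℕ, ∃ e : Ideal (𝓞 k) → Fin n, l.Prime → ∀ P Q, Prime P → (l : 𝓞 k) ∈ P →
      Prime Q → (l : 𝓞 k) ∈ Q → e P = e Q → P = Q := by
    intro l
    by_cases hl : l.Prime
    · have hfin : Finite {P : Ideal (𝓞 k) // Prime P ∧ (l : 𝓞 k) ∈ P} := by
        by_contra hinf
        rw [not_finite_iff_infinite] at hinf
        obtain ⟨s, hs⟩ := Infinite.exists_subset_card_eq {P : Ideal (𝓞 k) // Prime P ∧ (l : 𝓞 k) ∈ P} (n + 1)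
        have h2 := card_above hl (s.map (Function.Embedding.subtype _)) (fun P hP => by
          obtain ⟨Q, _, hQ⟩ := Finset.mem_map.1 hP
          rw [← hQ]
          exact Q.2)
        rw [Finset.card_map, hs] at h2
        omega
      have hft := Fintype.ofFinite {P : Ideal (𝓞 k) // Prime P ∧ (l : 𝓞 k) ∈ P}
      have hcard : Fintype.card {P : Ideal (𝓞 k) // Prime P ∧ (l : 𝓞 k) ∈ P} ≤ Fintype.card (Fin n) := by
        rw [Fintype.card_fin]
        have h2 := card_above hl ((Finset.univ : Finset {P : Ideal (𝓞 k) // Prime P ∧ (l : 𝓞 k) ∈ P}).map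
          (Function.Embedding.subtype _)) (fun P hP => by
            obtain ⟨Q, _, hQ⟩ := Finset.mem_map.1 hP
            rw [← hQ]
            exact Q.2)
        rw [Finset.card_map, Finset.card_univ] at h2
        omega
      obtain ⟨e⟩ := Function.Embedding.nonempty_of_card_le hcard
      refine ⟨fun P => if h : Prime P ∧ (l : 𝓞 k) ∈ P then e ⟨P, h⟩ else ⟨0, hn0⟩, ?_⟩
      intro _ P Q hP hP' hQ hQ' h
      simp only [dif_pos (And.intro hP hP'), dif_pos (And.intro hQ hQ')] at h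
      exact congrArg Subtype.val (e.injective h)
    · exact ⟨fun _ => ⟨0, hn0⟩, fun h => absurd h hl⟩
  choose e he using h1
  refine ⟨fun P => if h : Prime P then (bel h).choose else 0,
    fun P => e (if h : Prime P then (bel h).choose else 0) P, ?_, ?_⟩
  · intro P hP
    simp only [dif_pos hP]
    refine ⟨(bel hP).choose_spec.1, ?_⟩
    obtain ⟨f, hf, hnm⟩ := bel_le hP (bel hP).choose_spec.1 (bel hP).choose_spec.2
    rw [hnm]
    exact Nat.le_self_pow (by omega) _
  · intro P Q hP hQ hb hι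
    simp only [dif_pos hP, dif_pos hQ] at hb hι
    rw [← hb] at hι
    refine he _ (bel hP).choose_spec.1 P Q hP (bel hP).choose_spec.2 hQ ?_ hι
    rw [hb]
    exact (bel hQ).choose_spec.2

variable {n : ℕ} (b : Ideal (𝓞 k) → ℕ) (ι : Ideal (𝓞 k) → Fin n)

/-- the components -/
private noncomputable def cmp (M : Multiset (Ideal (𝓞 k))) (i : Fin n) : ℕ :=
  (M.map fun P => if ι P = i then b P else 1).prod

private theorem cmp_cons (P : Ideal (𝓞 k)) (M : Multiset (Ideal (𝓞 k))) (i : Fin n) :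
    cmp b ι (P ::ₘ M) i = (if ι P = i then b P else 1) * cmp b ι M i := by
  unfold cmp
  rw [Multiset.map_cons, Multiset.prod_cons]

private theorem cmp_prod (M : Multiset (Ideal (𝓞 k))) : ∏ i, cmp b ι M i = (M.map b).prod := by
  induction M using Multiset.induction_on with
  | empty => simp [cmp]
  | cons P M ih =>
    rw [Finset.prod_congr rfl fun i _ => cmp_cons b ι P M i, Finset.prod_mul_distrib, ih,
      Finset.prod_ite_eq, if_pos (Finset.mem_univ _), Multiset.map_cons, Multiset.prod_cons]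

variable {b ι}

private theorem cmp_pos {M : Multiset (Ideal (𝓞 k))} (hM : ∀ P ∈ M, (b P).Prime) (i : Fin n) :
    0 < cmp b ι M i := by
  unfold cmp
  refine Nat.pos_of_ne_zero (Multiset.prod_ne_zero ?_)
  rw [Multiset.mem_map, not_exists]
  rintro P ⟨hP, h0⟩
  by_cases h1 : ι P = i
  · rw [if_pos h1] at h0
    exact (hM P hP).ne_zero h0
  · rw [if_neg h1] at h0
    exact one_ne_zero h0

private theorem cmp_fact {M : Multiset (Ideal (𝓞 k))} (hM : ∀ P ∈ M, (b P).Prime) (i : Fin n) (q : ℕ) :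
    (cmp b ι M i).factorization q = M.countP fun P => ι P = i ∧ b P = q := by
  classical
  induction M using Multiset.induction_on with
  | empty => simp [cmp]
  | cons P M ih =>
    have hM' : ∀ Q ∈ M, (b Q).Prime := fun Q hQ => hM Q (Multiset.mem_cons_of_mem hQ)
    have hP := hM P (Multiset.mem_cons_self P M)
    rw [cmp_cons, Nat.factorization_mul (by split_ifs; exact hP.ne_zero; exact one_ne_zero)
      (cmp_pos hM' i).ne', Finsupp.add_apply, ih hM', Multiset.countP_cons, add_comm]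
    congr 1
    by_cases h1 : ι P = i
    · rw [if_pos h1, hP.factorization, Finsupp.single_apply]
      simp [h1]
    · rw [if_neg h1]
      simp [h1]

private theorem cmp_inj (hb : ∀ P, Prime P → (b P).Prime)
    (hinj : ∀ P Q, Prime P → Prime Q → b P = b Q → ι P = ι Q → P = Q)
    {M M' : Multiset (Ideal (𝓞 k))} (hM : ∀ P ∈ M, Prime P) (hM' : ∀ P ∈ M', Prime P)
    (h : ∀ i, cmp b ι M i = cmp b ι M' i) : M = M' := by
  classical
  have key : ∀ N : Multiset (Ideal (𝓞 k)), (∀ P ∈ N, Prime P) → ∀ Q, Prime Q →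
      N.count Q = (cmp b ι N (ι Q)).factorization (b Q) := by
    intro N hN Q hQ
    rw [cmp_fact (fun P hP => hb P (hN P hP)), Multiset.count]
    refine Multiset.countP_congr rfl fun P hP => ?_
    apply propext
    constructor
    · rintro rfl
      exact ⟨rfl, rfl⟩
    · rintro ⟨h1, h2⟩
      exact (hinj P Q (hN P hP) hQ h2 h1).symm
  ext Q
  by_cases hQ : Prime Q
  · rw [key M hM Q hQ, key M' hM' Q hQ, h]
  · rw [Multiset.count_eq_zero_of_notMem fun h1 => hQ (hM Q h1),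
      Multiset.count_eq_zero_of_notMem fun h1 => hQ (hM' Q h1)]

private theorem prod_le {M : Multiset (Ideal (𝓞 k))} (hM : ∀ P ∈ M, b P ≤ absNorm P) :
    (M.map b).prod ≤ (M.map absNorm).prod := by
  induction M using Multiset.induction_on with
  | empty => simp
  | cons P M ih =>
    rw [Multiset.map_cons, Multiset.map_cons, Multiset.prod_cons, Multiset.prod_cons]
    exact Nat.mul_le_mul (hM P (Multiset.mem_cons_self P M))
      (ih fun Q hQ => hM Q (Multiset.mem_cons_of_mem hQ))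

end

section

variable (k : Type) [Field k] [NumberField k]

private theorem box_sum {n B : ℕ} (f : ℕ → ℝ) (hf : ∀ m, 0 ≤ f m) (hs : Summable f) (T : Finset (Fin n → ℕ))
    (hT : ∀ t ∈ T, ∀ i, t i ∈ Finset.Icc 1 B) : ∑ t ∈ T, ∏ i, f (t i) ≤ (∑' m : ℕ, f m) ^ n := by
  calc ∑ t ∈ T, ∏ i, f (t i) ≤ ∑ t ∈ Fintype.piFinset (fun _ : Fin n => Finset.Icc 1 B), ∏ i, f (t i) := by
        refine Finset.sum_le_sum_of_subset_of_nonneg ?_ fun t _ _ => Finset.prod_nonneg fun i _ => hf _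
        intro t ht
        rw [Fintype.mem_piFinset]
        exact hT t ht
    _ = ∏ _i : Fin n, ∑ m ∈ Finset.Icc 1 B, f m :=
        (Finset.prod_univ_sum (fun _ : Fin n => Finset.Icc 1 B) (fun _ m => f m)).symm
    _ = (∑ m ∈ Finset.Icc 1 B, f m) ^ n := by
        rw [Finset.prod_const, Finset.card_univ, Fintype.card_fin]
    _ ≤ (∑' m : ℕ, f m) ^ n := by
        refine pow_le_pow_left₀ (Finset.sum_nonneg fun m _ => hf m) ?_ n
        exact hs.sum_le_tsum _ fun m _ => hf m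

theorem zk_sum_le {n : ℕ} (hn : finrank ℚ k ≤ n) {σ : ℝ} (hσ : 1 < σ)
    (S : Finset {I : Ideal (𝓞 k) // I ≠ ⊥}) :
    ∑ I ∈ S, (absNorm I.1 : ℝ) ^ (-σ) ≤ (∑' m : ℕ, (m : ℝ) ^ (-σ)) ^ n := by
  classical
  obtain ⟨b, ι, hb, hinj⟩ := exists_lab (k := k) hn
  have hpr : ∀ I : Ideal (𝓞 k), ∀ P ∈ normalizedFactors I, Prime P :=
    fun I P hP => prime_of_normalized_factor P hP
  obtain ⟨φ, hφ⟩ : ∃ φ : {I : Ideal (𝓞 k) // I ≠ ⊥} → (Fin n → ℕ),
      φ = fun I i => cmp b ι (normalizedFactors I.1) i := ⟨_, rfl⟩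
  have hφi : Function.Injective φ := by
    intro I J h
    rw [hφ] at h
    have h1 := cmp_inj (fun P hP => (hb P hP).1) hinj (hpr I.1) (hpr J.1) (fun i => congrFun h i)
    apply Subtype.ext
    rw [← Ideal.prod_normalizedFactors_eq_self I.2, h1, Ideal.prod_normalizedFactors_eq_self J.2]
  have hφp : ∀ I i, 0 < φ I i := by
    intro I i
    rw [hφ]
    exact cmp_pos (fun P hP => (hb P (hpr I.1 P hP)).1) i
  have hφN : ∀ I : {I : Ideal (𝓞 k) // I ≠ ⊥}, ∏ i, φ I i ≤ absNorm I.1 := by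
    intro I
    rw [hφ]
    show ∏ i, cmp b ι (normalizedFactors I.1) i ≤ _
    rw [cmp_prod]
    refine (prod_le fun P hP => (hb P (hpr I.1 P hP)).2).trans (le_of_eq ?_)
    rw [← map_multiset_prod, Ideal.prod_normalizedFactors_eq_self I.2]
  have hBe : ∃ B : ℕ, ∀ I ∈ S, absNorm I.1 ≤ B := by
    induction S using Finset.induction_on with
    | empty => exact ⟨0, fun I hI => absurd hI (Finset.notMem_empty I)⟩
    | insert J S _ ih =>
      obtain ⟨B, hB⟩ := ih
      refine ⟨B + absNorm J.1, fun I hI => ?_⟩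
      rcases Finset.mem_insert.1 hI with h1 | h1
      · rw [h1]
        omega
      · have := hB I h1
        omega
  obtain ⟨B, hB⟩ := hBe
  have hsum : Summable fun m : ℕ => (m : ℝ) ^ (-σ) := Real.summable_nat_rpow.2 (by linarith)
  have h1 : ∀ I ∈ S, (absNorm I.1 : ℝ) ^ (-σ) ≤ ∏ i, (φ I i : ℝ) ^ (-σ) := by
    intro I _
    rw [Real.finsetProd_rpow _ _ fun i _ => Nat.cast_nonneg _]
    have h2 : ((∏ i, φ I i : ℕ) : ℝ) ≤ absNorm I.1 := by exact_mod_cast hφN I
    have h3 : 0 < ((∏ i, φ I i : ℕ) : ℝ) := by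
      exact_mod_cast Finset.prod_pos fun i _ => hφp I i
    push_cast at h2 h3
    exact Real.rpow_le_rpow_of_nonpos h3 h2 (by linarith)
  refine (Finset.sum_le_sum h1).trans ?_
  have h2 : ∑ I ∈ S, ∏ i, (φ I i : ℝ) ^ (-σ) = ∑ t ∈ S.image φ, ∏ i, (t i : ℝ) ^ (-σ) := by
    rw [Finset.sum_image (Set.injOn_of_injective hφi)]
  rw [h2]
  refine box_sum (B := B) (fun m : ℕ => (m : ℝ) ^ (-σ)) (fun m => Real.rpow_nonneg (Nat.cast_nonneg m) _)
    hsum _ ?_
  intro t ht i
  obtain ⟨I, hI, rfl⟩ := Finset.mem_image.1 ht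
  rw [Finset.mem_Icc]
  refine ⟨hφp I i, le_trans ?_ (hB I hI)⟩
  refine le_trans ?_ (hφN I)
  exact Nat.le_of_dvd (Finset.prod_pos fun i _ => hφp I i) (Finset.dvd_prod_of_mem _ (Finset.mem_univ i))

theorem zk_summable {σ : ℝ} (hσ : 1 < σ) :
    Summable fun I : {I : Ideal (𝓞 k) // I ≠ ⊥} => (absNorm I.1 : ℝ) ^ (-σ) :=
  summable_of_sum_le (fun _ => Real.rpow_nonneg (Nat.cast_nonneg _) _)
    (fun S => zk_sum_le k le_rfl hσ S)

theorem zk_le {n : ℕ} (hn : finrank ℚ k ≤ n) {σ : ℝ} (hσ : 1 < σ) :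
    ∑' I : {I : Ideal (𝓞 k) // I ≠ ⊥}, (absNorm I.1 : ℝ) ^ (-σ) ≤ (∑' m : ℕ, (m : ℝ) ^ (-σ)) ^ n :=
  Real.tsum_le_of_sum_le (fun _ => Real.rpow_nonneg (Nat.cast_nonneg _) _)
    (fun S => zk_sum_le k hn hσ S)

theorem zk_summable_complex {s : ℂ} (hs : 1 < s.re) :
    Summable fun I : {I : Ideal (𝓞 k) // I ≠ ⊥} => (absNorm I.1 : ℂ) ^ (-s) := by
  refine Summable.of_norm_bounded (zk_summable k hs) fun I => ?_
  have h1 : 0 < absNorm I.1 := by
    rw [Nat.pos_iff_ne_zero, Ne, absNorm_eq_zero_iff]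
    exact I.2
  rw [Complex.norm_natCast_cpow_of_pos h1, Complex.neg_re]

/-- sums over the ideals as sums over the norms -/
theorem sum_norm {E : Type} [NormedAddCommGroup E] [NormedSpace ℝ E] [CompleteSpace E] (f : ℕ → E)
    (h0 : f 0 = 0) (hf : Summable fun I : {I : Ideal (𝓞 k) // I ≠ ⊥} => f (absNorm I.1)) :
    HasSum (fun m : ℕ => H77.UZ.an k m • f m) (∑' I : {I : Ideal (𝓞 k) // I ≠ ⊥}, f (absNorm I.1)) := by
  obtain ⟨g, hg⟩ : ∃ g : {I : Ideal (𝓞 k) // I ≠ ⊥} → ℕ, ∀ I, g I = absNorm I.1 :=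
    ⟨fun I => absNorm I.1, fun _ => rfl⟩
  have h1 := hf.hasSum.tsum_fiberwise g
  have h2 : (fun m : ℕ => H77.UZ.an k m • f m) =
      fun m : ℕ => ∑' I : g ⁻¹' {m}, f (absNorm I.1.1) := by
    ext m
    have h3 : ∀ I : g ⁻¹' {m}, f (absNorm I.1.1) = f m := by
      intro I
      rw [← hg I.1]
      exact congrArg f I.2
    rw [tsum_congr h3, tsum_const]
    rcases Nat.eq_zero_or_pos m with hm | hm
    · rw [hm, h0, smul_zero, smul_zero]
    · unfold H77.UZ.an
      have h5 : Nat.card (g ⁻¹' {m}) = Nat.card {I : Ideal (𝓞 k) // absNorm I = m} := by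
        refine Nat.card_congr ⟨fun I => ⟨I.1.1, (hg I.1).symm.trans I.2⟩, fun I => ⟨⟨I.1, by
            intro h6
            have h7 := I.2
            rw [h6, absNorm_bot] at h7
            omega⟩, (hg _).trans I.2⟩, fun I => rfl, fun I => rfl⟩
      rw [h5, Nat.cast_smul_eq_nsmul]
  rw [h2]
  exact h1

end

end Pool.Agent.H72.UZ
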