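import Pool.Agent.H77.UZ.Core
import Pool.Agent.H72.UZ.Zeta
import Pool.Agent.H72.UZ.Zk

/-!
# [H72 UZ MAIN] The continued zeta functions, with bounds polynomial in the discriminant

From `H77.UZ.core` (Riesz mean of the numbers of ideals) and `zeta_of_riesz`, `zk_le`, `sum_norm`.
-/

set_option autoImplicit false

namespace Pool.Agent.H72.UZ

open NumberField Ideal Module

theorem rank_le {k : Type} [Field k] [NumberField k] {n : ℕ} (hn : finrank ℚ k ≤ n) : Units.rank k ≤ n := by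
  have h1 := InfinitePlace.card_add_two_mul_card_eq_rank k
  have h2 := InfinitePlace.card_eq_nrRealPlaces_add_nrComplexPlaces k
  unfold Units.rank
  omega

theorem an_one (k : Type) [Field k] [NumberField k] : 1 ≤ H77.UZ.an k 1 := by
  unfold H77.UZ.an
  have h1 : Nat.card {I : Ideal (𝓞 k) // absNorm I = 1} ≠ 0 := by
    have hne : Nonempty {I : Ideal (𝓞 k) // absNorm I = 1} := ⟨⟨⊤, by simp⟩⟩
    have hfin : Finite {I : Ideal (𝓞 k) // absNorm I = 1} := finite_setOfPred_absNorm_eq (S := 𝓞 k) 1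
    exact Nat.card_pos.ne'
  exact_mod_cast Nat.one_le_iff_ne_zero.2 h1

theorem zeta_two_le : ∑' m : ℕ, (m : ℝ) ^ (-(2 : ℝ)) ≤ 2 := by
  have h1 : ∑' m : ℕ, (m : ℝ) ^ (-(2 : ℝ)) = Real.pi ^ 2 / 6 := by
    rw [← hasSum_zeta_two.tsum_eq]
    refine tsum_congr fun m => ?_
    rw [Real.rpow_neg (Nat.cast_nonneg m), one_div]
    norm_num
  rw [h1]
  have h2 := Real.pi_lt_d2
  have h3 := Real.pi_pos
  nlinarith

/-- the continued zeta functions -/
theorem zeta_cont (n : ℕ) (hn : 0 < n) : ∃ (A : ℕ) (C : ℝ), 0 < C ∧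
    ∀ (k : Type) [Field k] [NumberField k], finrank ℚ k ≤ n →
      ∃ Z : ℂ → ℂ, DifferentiableOn ℂ Z {s | 1 - 1 / (n : ℝ) < s.re} ∧
        (∀ s : ℂ, 1 < s.re → Z s = (s - 1) * zk k s) ∧
        (∀ s : ℂ, ‖s - 2‖ ≤ 1 + 1 / (2 * (n : ℝ)) → ‖Z s‖ ≤ C * |(discr k : ℝ)| ^ A) ∧
        1 ≤ C * |(discr k : ℝ)| ^ A * ‖Z 1‖ := by
  obtain ⟨A, C, hC, hcore⟩ := H77.UZ.core n hn
  obtain ⟨A', C', hC', hz⟩ := zeta_of_riesz n hn
  refine ⟨A * A' + A, C' * C ^ (A' + 1), by positivity, ?_⟩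
  intro k _ _ hk
  obtain ⟨κ, hκ, hR⟩ := hcore k hk
  have hD : 1 ≤ |(discr k : ℝ)| := by
    have h1 : 1 ≤ |discr k| := Int.one_le_abs (discr_ne_zero k)
    exact_mod_cast h1
  obtain ⟨D, hDd⟩ : ∃ D : ℝ, D = |(discr k : ℝ)| := ⟨_, rfl⟩
  rw [← hDd] at hD hR ⊢
  have hDA : 1 ≤ D ^ A := one_le_pow₀ hD
  have hsr : ∀ σ : ℝ, 1 < σ → HasSum (fun m : ℕ => H77.UZ.an k m * (m : ℝ) ^ (-σ))
      (∑' I : {I : Ideal (𝓞 k) // I ≠ ⊥}, (absNorm I.1 : ℝ) ^ (-σ)) := by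
    intro σ hσ
    exact sum_norm k (fun m : ℕ => (m : ℝ) ^ (-σ)) (by
      rw [Nat.cast_zero, Real.zero_rpow (by linarith)]) (zk_summable k hσ)
  have h2 : ∑' m : ℕ, H77.UZ.an k m * (m : ℝ) ^ (-(2 : ℝ)) ≤ 2 ^ n := by
    rw [(hsr 2 (by norm_num)).tsum_eq]
    refine (zk_le k hk (by norm_num)).trans ?_
    exact pow_le_pow_left₀ (tsum_nonneg fun m => Real.rpow_nonneg (Nat.cast_nonneg m) _) zeta_two_le n
  have hE : 1 ≤ C * D ^ A := one_le_mul_of_one_le_of_one_le hC hDA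
  obtain ⟨Z, hZ1, hZ2, hZ3, hZ4⟩ := hz (Units.rank k) (H77.UZ.an k) κ (C * D ^ A) (rank_le hk)
    (fun m => Nat.cast_nonneg _) (an_one k) (fun σ hσ => (hsr σ hσ).summable) h2 hκ hE hR
  refine ⟨Z, hZ1, ?_, ?_, ?_⟩
  · intro s hs
    rw [hZ2 s hs]
    congr 1
    have hs0 : s ≠ 0 := by
      rintro rfl
      simp at hs
      linarith
    have h3 := (sum_norm k (fun m : ℕ => (m : ℂ) ^ (-s)) (by
      rw [Nat.cast_zero, Complex.zero_cpow (neg_ne_zero.2 hs0)]) (zk_summable_complex k hs)).tsum_eq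
    unfold zk
    rw [← h3]
    exact tsum_congr fun m => by rw [Complex.real_smul]
  · intro s hs
    refine (hZ3 s hs).trans ?_
    calc C' * (C * D ^ A) ^ A' = C' * (C ^ A' * D ^ (A * A')) := by rw [mul_pow, ← pow_mul]
      _ ≤ C' * (C ^ (A' + 1) * D ^ (A * A' + A)) := by
          have h4 : C ^ A' ≤ C ^ (A' + 1) := pow_le_pow_right₀ hC (by omega)
          have h5 : D ^ (A * A') ≤ D ^ (A * A' + A) := pow_le_pow_right₀ hD (by omega)
          gcongr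
      _ = C' * C ^ (A' + 1) * D ^ (A * A' + A) := by ring
  · refine hZ4.trans ?_
    have h3 : C' * (C * D ^ A) ≤ C' * C ^ (A' + 1) * D ^ (A * A' + A) := by
      calc C' * (C * D ^ A) ≤ C' * (C ^ (A' + 1) * D ^ (A * A' + A)) := by
            have h4 : C ≤ C ^ (A' + 1) := le_self_pow₀ hC (by omega)
            have h5 : D ^ A ≤ D ^ (A * A' + A) := pow_le_pow_right₀ hD (by omega)
            gcongr
        _ = C' * C ^ (A' + 1) * D ^ (A * A' + A) := by ring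
    exact mul_le_mul_of_nonneg_right h3 (norm_nonneg _)

end Pool.Agent.H72.UZ
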