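import Pool.Agent.H72.UZ.Gam

/-!
# [H72 UZ SUM] The Dirichlet series of `a` as a Mellin transform of its Riesz mean

`Rz r a x = ∑_{m ≤ x} a(m) (log (x/m))^r = ∑_m a(m) gr r (x/m)`, so `∫ Rz(x) x^(-s-1) dx = ∑_m a(m) m^(-s) · r!/s^(r+1)`
(`hasSum_integral_of_summable_integral_norm`).
-/

set_option autoImplicit false

namespace Pool.Agent.H72.UZ

open Complex MeasureTheory Filter Topology Set

/-- the Riesz mean of order `r` -/
noncomputable def Rz (r : ℕ) (a : ℕ → ℝ) (x : ℝ) : ℝ :=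
  ∑ m ∈ Finset.Icc 1 ⌊x⌋₊, a m * Real.log (x / m) ^ r

theorem rz_tsum (r : ℕ) (a : ℕ → ℝ) (x : ℝ) :
    ((Rz r a x : ℝ) : ℂ) = ∑' m : ℕ, (a m : ℂ) * gr r (x / m) := by
  rw [tsum_eq_sum (s := Finset.Icc 1 ⌊x⌋₊)]
  · unfold Rz
    push_cast
    refine Finset.sum_congr rfl fun m hm => ?_
    have h1 := Finset.mem_Icc.1 hm
    have hm0 : (0 : ℝ) < m := by exact_mod_cast h1.1
    have h2 : (m : ℝ) ≤ x := (Nat.le_floor_iff' (by omega)).1 h1.2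
    rw [gr_of_le r ((one_le_div hm0).2 h2)]
    push_cast
    rfl
  · intro m hm
    rcases Nat.eq_zero_or_pos m with h0 | h0
    · rw [h0, Nat.cast_zero, div_zero, gr_of_lt r one_pos, mul_zero]
    · rw [Finset.mem_Icc, not_and, not_le] at hm
      have h1 : x < m := Nat.lt_of_floor_lt (hm h0)
      have hm0 : (0 : ℝ) < m := by exact_mod_cast h0
      rw [gr_of_lt r ((div_lt_one hm0).2 h1), mul_zero]

theorem gr_norm (r : ℕ) (x : ℝ) : ((‖gr r x‖ : ℝ) : ℂ) = gr r x := by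
  by_cases hx : 1 ≤ x
  · rw [gr_of_le r hx, Complex.norm_real, Real.norm_eq_abs, abs_of_nonneg (pow_nonneg (Real.log_nonneg hx) r)]
  · rw [gr_of_lt r (not_le.1 hx), norm_zero, Complex.ofReal_zero]

theorem gr_scale (r : ℕ) {m : ℕ} (hm : 0 < m) {s : ℂ} (hs : 0 < s.re) :
    MellinConvergent (fun x : ℝ => gr r (x / m)) (-s) ∧
    mellin (fun x : ℝ => gr r (x / m)) (-s) = (m : ℂ) ^ (-s) * ((r.factorial : ℂ) / s ^ (r + 1)) := by
  have hm0 : (0 : ℝ) < (m : ℝ)⁻¹ := by positivity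
  have hw : (-s).re < 0 := by
    rw [Complex.neg_re]
    linarith
  have h1 : (fun x : ℝ => gr r (x / m)) = fun x : ℝ => gr r ((m : ℝ)⁻¹ * x) := by
    ext x
    rw [div_eq_inv_mul]
  rw [h1]
  refine ⟨(MellinConvergent.comp_mul_left hm0).2 (gr_conv r hw), ?_⟩
  rw [mellin_comp_mul_left _ _ hm0, gr_mellin r _ hw, neg_neg, smul_eq_mul]
  congr 1
  have h2 : (((m : ℝ)⁻¹ : ℝ) : ℂ) = (m : ℂ)⁻¹ := by push_cast; rfl
  rw [h2, Complex.inv_cpow _ _ (by rw [Complex.natCast_arg]; exact Real.pi_pos.ne), Complex.cpow_neg]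

theorem rz_term (r : ℕ) (c : ℝ) (m : ℕ) {s : ℂ} (hs : 0 < s.re) :
    IntegrableOn (fun x : ℝ => (x : ℂ) ^ (-s - 1) * ((c : ℂ) * gr r (x / m))) (Ioi 0) ∧
    ∫ x in Ioi (0 : ℝ), (x : ℂ) ^ (-s - 1) * ((c : ℂ) * gr r (x / m)) =
      (c : ℂ) * (m : ℂ) ^ (-s) * ((r.factorial : ℂ) / s ^ (r + 1)) := by
  have hs0 : s ≠ 0 := by
    rintro rfl
    simp at hs
  rcases Nat.eq_zero_or_pos m with h0 | h0
  · have h1 : (fun x : ℝ => (x : ℂ) ^ (-s - 1) * ((c : ℂ) * gr r (x / m))) = fun _ => 0 := by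
      ext x
      rw [h0, Nat.cast_zero, div_zero, gr_of_lt r one_pos, mul_zero, mul_zero]
    rw [h1, h0, Nat.cast_zero, Complex.zero_cpow (neg_ne_zero.2 hs0)]
    refine ⟨integrableOn_zero, ?_⟩
    simp
  · obtain ⟨h1, h2⟩ := gr_scale r h0 hs
    have h3 : (fun x : ℝ => (x : ℂ) ^ (-s - 1) * ((c : ℂ) * gr r (x / m))) =
        fun x : ℝ => (c : ℂ) * ((x : ℂ) ^ (-s - 1) • gr r (x / m)) := by
      ext x
      rw [smul_eq_mul]
      ring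
    rw [h3]
    refine ⟨Integrable.const_mul h1 _, ?_⟩
    rw [integral_const_mul]
    have h4 : ∫ x in Ioi (0 : ℝ), (x : ℂ) ^ (-s - 1) • gr r (x / m) =
        mellin (fun x : ℝ => gr r (x / m)) (-s) := rfl
    rw [h4, h2]
    ring

theorem rz_norm (r : ℕ) {c : ℝ} (hc : 0 ≤ c) (m : ℕ) {s : ℂ} (hs : 0 < s.re) :
    ∫ x in Ioi (0 : ℝ), ‖(x : ℂ) ^ (-s - 1) * ((c : ℂ) * gr r (x / m))‖ =
      c * (m : ℝ) ^ (-s.re) * ((r.factorial : ℝ) / s.re ^ (r + 1)) := by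
  have h1 := (rz_term r c m (s := (s.re : ℂ)) (by simpa using hs)).2
  have h2 : (((∫ x in Ioi (0 : ℝ), ‖(x : ℂ) ^ (-s - 1) * ((c : ℂ) * gr r (x / m))‖) : ℝ) : ℂ) =
      ∫ x in Ioi (0 : ℝ), (x : ℂ) ^ (-(s.re : ℂ) - 1) * ((c : ℂ) * gr r (x / m)) := by
    rw [← integral_complex_ofReal]
    refine setIntegral_congr_fun measurableSet_Ioi fun x hx => ?_
    have hx0 : 0 < x := hx
    show ((‖(x : ℂ) ^ (-s - 1) * ((c : ℂ) * gr r (x / m))‖ : ℝ) : ℂ) = _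
    rw [norm_mul, norm_mul, Complex.norm_real, Real.norm_eq_abs, abs_of_nonneg hc,
      Complex.norm_cpow_eq_rpow_re_of_pos hx0, Complex.ofReal_mul, Complex.ofReal_mul, gr_norm,
      Complex.ofReal_cpow hx0.le]
    congr 2
    simp
  have h3 : (((∫ x in Ioi (0 : ℝ), ‖(x : ℂ) ^ (-s - 1) * ((c : ℂ) * gr r (x / m))‖) : ℝ) : ℂ) =
      ((c * (m : ℝ) ^ (-s.re) * ((r.factorial : ℝ) / s.re ^ (r + 1)) : ℝ) : ℂ) := by
    rw [h2, h1]
    push_cast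
    rw [Complex.ofReal_cpow (Nat.cast_nonneg m)]
    push_cast
    rfl
  exact_mod_cast h3

/-- the Mellin transform of the Riesz mean -/
theorem rz_mellin (r : ℕ) {a : ℕ → ℝ} (ha : ∀ m, 0 ≤ a m) {s : ℂ} (hs : 0 < s.re)
    (hsum : Summable fun m : ℕ => a m * (m : ℝ) ^ (-s.re)) :
    mellin (fun x => ((Rz r a x : ℝ) : ℂ)) (-s) =
      (∑' m : ℕ, (a m : ℂ) * (m : ℂ) ^ (-s)) * ((r.factorial : ℂ) / s ^ (r + 1)) := by
  have h1 : Summable fun m : ℕ => ∫ x in Ioi (0 : ℝ), ‖(x : ℂ) ^ (-s - 1) * ((a m : ℂ) * gr r (x / m))‖ := by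
    refine (hsum.mul_right ((r.factorial : ℝ) / s.re ^ (r + 1))).congr fun m => ?_
    rw [rz_norm r (ha m) m hs]
  have h2 := (hasSum_integral_of_summable_integral_norm (μ := volume.restrict (Ioi (0 : ℝ)))
    (F := fun (m : ℕ) (x : ℝ) => (x : ℂ) ^ (-s - 1) * ((a m : ℂ) * gr r (x / m)))
    (fun m => (rz_term r (a m) m hs).1) h1).tsum_eq
  have h3 : mellin (fun x => ((Rz r a x : ℝ) : ℂ)) (-s) =
      ∫ x in Ioi (0 : ℝ), ∑' m : ℕ, (x : ℂ) ^ (-s - 1) * ((a m : ℂ) * gr r (x / m)) := by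
    unfold mellin
    congr 1
    ext x
    show (x : ℂ) ^ (-s - 1) • ((Rz r a x : ℝ) : ℂ) = _
    rw [rz_tsum, tsum_mul_left, smul_eq_mul]
  rw [h3, ← h2, ← tsum_mul_right]
  exact tsum_congr fun m => (rz_term r (a m) m hs).2

end Pool.Agent.H72.UZ
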